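import Pool.Agent.H.MP_1d7d98_al.D

set_option autoImplicit false

namespace Pool.Agent.H.MP_1d7d98_al

variable {G : Type} [Group G] {S : Set G}

def St (S : Set G) (x y : G) : Prop := x⁻¹ * y ∈ S ∨ y⁻¹ * x ∈ S

lemma St.symm {x y : G} (h : St S x y) : St S y x := Or.symm h

lemma adj_st {x y : G} (h : (cay S).Adj x y) : St S x y := by
  simp only [cay, SimpleGraph.fromRel_adj] at h; exact h.2

lemma st_adj {x y : G} (h : St S x y) : x = y ∨ (cay S).Adj x y := by
  by_cases e : x = y
  · exact Or.inl e
  · right; simp only [cay, SimpleGraph.fromRel_adj]; exact ⟨e, h⟩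

lemma conn (hS : Subgroup.closure S = ⊤) : (cay S).Connected := by
  have key : ∀ x g : G, (cay S).Reachable x (x * g) := by
    intro x g
    have hg : g ∈ Subgroup.closure S := by rw [hS]; trivial
    have step : ∀ a b : G, St S a b → (cay S).Reachable a b := fun a b h => by
      rcases st_adj h with rfl | h
      · rfl
      · exact h.reachable
    induction hg using Subgroup.closure_induction_right with
    | one => simp
    | mul_right y hy s hs ih => exact ih.trans (step _ _ (Or.inl (by simpa using hs)))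
    | mul_inv_cancel y hy s hs ih => exact ih.trans (step _ _ (Or.inr (by simpa using hs)))
  exact ⟨fun x y => by simpa using key x (x⁻¹ * y)⟩

lemma wd_self (x : G) : wd S x x = 0 := SimpleGraph.dist_self
lemma wd_comm (x y : G) : wd S x y = wd S y x := SimpleGraph.dist_comm

lemma wd_st {x y : G} (h : St S x y) : wd S x y ≤ 1 := by
  rcases st_adj h with rfl | h
  · simp [wd_self]
  · exact (SimpleGraph.dist_eq_one_iff_adj.2 h).le

variable (hS : Subgroup.closure S = ⊤)
include hS

lemma wd_tri (x y z : G) : wd S x z ≤ wd S x y + wd S y z := (conn hS).dist_triangle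

lemma wd_zero {x y : G} (h : wd S x y = 0) : x = y := (conn hS).dist_eq_zero_iff.1 h

lemma wd_one {x y : G} (h : wd S x y = 1) : St S x y :=
  adj_st (SimpleGraph.dist_eq_one_iff_adj.1 h)

lemma wd_step {x y : G} {n : ℕ} (h : wd S x y = n + 1) : ∃ z, St S x z ∧ wd S z y = n := by
  obtain ⟨p, hp⟩ := (conn hS).exists_walk_length_eq_dist x y
  change _ = wd S x y at hp
  rw [h] at hp
  cases p with
  | nil => simp at hp
  | @cons _ z _ h1 p =>
    refine ⟨z, adj_st h1, le_antisymm ?_ ?_⟩
    · have := SimpleGraph.dist_le p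
      simp only [SimpleGraph.Walk.length_cons] at hp
      change wd S z y ≤ _ at this
      omega
    · have := wd_tri hS x z y
      have := wd_st (adj_st h1)
      omega

lemma wd_ind (y : G) (P : G → ℕ → Prop) (h0 : P y 0)
    (h1 : ∀ x z n, St S x z → wd S z y = n → wd S x y = n + 1 → P z n → P x (n + 1)) (x : G) :
    P x (wd S x y) := by
  generalize hn : wd S x y = n
  induction n generalizing x with
  | zero => rw [wd_zero hS hn]; exact h0
  | succ n ih =>
    obtain ⟨z, h2, h3⟩ := wd_step hS hn
    exact h1 x z n h2 h3 hn (ih z h3)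

lemma wd_map {K : Type} [Group K] {T : Set K} (hT : Subgroup.closure T = ⊤) (f : G → K)
    (hf : ∀ x y, St S x y → wd T (f x) (f y) ≤ 1) (x y : G) : wd T (f x) (f y) ≤ wd S x y := by
  refine wd_ind hS y (fun x n => wd T (f x) (f y) ≤ n) (by simp [wd_self]) ?_ x
  intro x z n h _ _ ih
  have := wd_tri hT (f x) (f z) (f y)
  have := hf x z h
  omega

lemma wd_mul (g x y : G) : wd S (g * x) (g * y) = wd S x y := by
  have key : ∀ g x y : G, wd S (g * x) (g * y) ≤ wd S x y := fun g =>
    wd_map hS hS (fun x => g * x) fun x y h => wd_st (by simpa [St, mul_assoc] using h)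
  refine le_antisymm (key g x y) ?_
  simpa using key g⁻¹ (g * x) (g * y)

lemma wd_hom (u : G →* Multiplicative ℤ) (hu : ∀ s ∈ S, |(u s).toAdd| ≤ 1) (x y : G) :
    |(u y).toAdd - (u x).toAdd| ≤ wd S x y := by
  refine wd_ind hS y (fun x n => |(u y).toAdd - (u x).toAdd| ≤ n) (by simp) ?_ x
  intro x z n h _ _ ih
  have : |(u z).toAdd - (u x).toAdd| ≤ 1 := by
    rcases h with h | h
    · have := hu _ h
      simp only [map_mul, map_inv, toAdd_mul, toAdd_inv] at this
      rwa [sub_eq_neg_add]
    · have := hu _ h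
      simp only [map_mul, map_inv, toAdd_mul, toAdd_inv] at this
      rwa [abs_sub_comm, sub_eq_neg_add]
  push_cast
  rw [abs_le] at *
  constructor <;> linarith [ih.1, ih.2, this.1, this.2]

lemma wd_pow (s : G) (hs : s ∈ S) (n : ℤ) (x : G) : (wd S x (x * s ^ n) : ℤ) ≤ |n| := by
  have key : ∀ (m : ℕ) (x : G), wd S x (x * s ^ m) ≤ m := by
    intro m x
    induction m with
    | zero => simp [wd_self]
    | succ m ih =>
      have := wd_tri hS x (x * s ^ m) (x * s ^ (m + 1))
      have : wd S (x * s ^ m) (x * s ^ (m + 1)) ≤ 1 :=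
        wd_st (Or.inl (by simpa [pow_succ, mul_assoc] using hs))
      omega
  obtain ⟨m, rfl | rfl⟩ := Int.eq_nat_or_neg n
  · simpa using key m x
  · have := key m (x * s ^ (-(m : ℤ)))
    rw [wd_comm] at this
    simpa using this

omit hS in
lemma ivt (σ : ℕ → ℝ) (M s : ℝ) (hM : 0 ≤ M) (m m' : ℕ) (hm : m ≤ m')
    (h : ∀ j, m ≤ j → j < m' → |σ j - σ (j + 1)| ≤ M) (hs : (σ m - s) * (σ m' - s) ≤ 0) :
    ∃ j, m ≤ j ∧ j ≤ m' ∧ |s - σ j| ≤ M := by
  induction m', hm using Nat.le_induction with
  | base =>
    refine ⟨m, le_rfl, le_rfl, ?_⟩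
    have : σ m - s = 0 := by nlinarith
    rw [show s - σ m = 0 by linarith]; simpa
  | succ n hn ih =>
    by_cases h1 : (σ m - s) * (σ n - s) ≤ 0
    · obtain ⟨j, a, b, c⟩ := ih (fun j a b => h j a (by omega)) h1
      exact ⟨j, a, by omega, c⟩
    · refine ⟨n, hn, by omega, ?_⟩
      have h2 := h n hn (by omega)
      push Not at h1
      rw [abs_le] at h2 ⊢
      rcases lt_trichotomy (σ m - s) 0 with a | a | a
      · have b : σ n - s < 0 := by nlinarith
        have c : 0 ≤ σ (n + 1) - s := by nlinarith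
        constructor <;> linarith [h2.1, h2.2]
      · rw [a] at h1; simp at h1
      · have b : 0 < σ n - s := by nlinarith
        have c : σ (n + 1) - s ≤ 0 := by nlinarith
        constructor <;> linarith [h2.1, h2.2]

omit hS in
lemma jump {B : Type} (f : ℝ → B) (a b : ℝ) (hab : a ≤ b) (h : f a ≠ f b) :
    ∃ s ∈ Set.Icc a b, ∃ t ∈ Set.Icc a b, |s - t| ≤ 1 ∧ f s ≠ f t := by
  by_contra hn
  push Not at hn
  have key : ∀ n : ℕ, f (min b (a + n)) = f a := by
    intro n
    induction n with
    | zero => simp [hab]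
    | succ n ih =>
      rw [← ih]
      have h0 : (0 : ℝ) ≤ n := n.cast_nonneg
      apply hn
      · exact ⟨le_min hab (by push_cast; linarith), min_le_left _ _⟩
      · exact ⟨le_min hab (by linarith), min_le_left _ _⟩
      · push_cast
        rw [abs_le]
        rcases le_total b (a + n) with h1 | h1 <;> rcases le_total b (a + (n + 1)) with h2 | h2 <;>
          simp only [min_eq_left, min_eq_right, h1, h2] <;> constructor <;> linarith
  obtain ⟨n, hn⟩ := exists_nat_ge (b - a)
  have := key n
  rw [min_eq_left (by linarith)] at this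
  exact h this.symm

end Pool.Agent.H.MP_1d7d98_al
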