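import Pool.Agent.H.MP_1d7d98_al.A

set_option autoImplicit false

namespace Pool.Agent.H.MP_1d7d98_al

structure Dat (G : Type) [Group G] : Type where
  a : G
  b : G
  k : G
  t : G
  r : G →* G
  c : G → Bool
  gen : Subgroup.closure {a, b, k, t} = ⊤
  comm : Commute a b
  ra : r a = a
  rb : r b = b
  rk : r k = 1
  rt : r t = t
  hom : ∀ i j l : ℤ, ∃ u : G →* Multiplicative ℤ,
    (u a).toAdd = i ∧ (u b).toAdd = j ∧ (u k).toAdd = 0 ∧ (u t).toAdd = l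
  ca : ∀ x, c (x * a) = c x
  cb : ∀ x, c (x * b) = c x
  ck : ∀ x, c (x * k) = c x
  ct : ∀ x, x ≠ 1 → c (x * t) = c x
  c1 : c 1 ≠ c t
  k1 : k ≠ 1
  free : ∀ n ∈ Subgroup.closure {a, b, k}, r n = 1 → ∀ i j : ℤ, Commute (a ^ i * b ^ j) n →
    n = 1 ∨ a ^ i * b ^ j = 1
  rel : ∀ m : ℕ, k * (a ^ 2 ^ m * k * (a ^ 2 ^ m)⁻¹) = b ^ 2 ^ m * k * (b ^ 2 ^ m)⁻¹

namespace Dat

variable {G : Type} [Group G] (D : Dat G)

def S : Set G := {D.a, D.b, D.k, D.t}
def H : Subgroup G := Subgroup.closure {D.a, D.b, D.t}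
def G0 : Subgroup G := Subgroup.closure {D.a, D.b, D.k}
def T : Set D.H := Subtype.val ⁻¹' {D.a, D.b, D.t}
def cc (y x : G) : Bool := D.c (y⁻¹ * x)
def E (y u v : G) : Prop := (u = y ∧ v = y * D.t) ∨ (u = y * D.t ∧ v = y)

lemma hS : Subgroup.closure D.S = ⊤ := D.gen
lemma hT : Subgroup.closure D.T = ⊤ := Subgroup.closure_closure_coe_preimage

lemma aH : D.a ∈ D.H := Subgroup.subset_closure (by simp)
lemma bH : D.b ∈ D.H := Subgroup.subset_closure (by simp)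
lemma tH : D.t ∈ D.H := Subgroup.subset_closure (by simp)
lemma aG : D.a ∈ D.G0 := Subgroup.subset_closure (by simp)
lemma bG : D.b ∈ D.G0 := Subgroup.subset_closure (by simp)
lemma kG : D.k ∈ D.G0 := Subgroup.subset_closure (by simp)

variable {D}

lemma E.symm {y u v : G} (h : D.E y u v) : D.E y v u := by
  rcases h with h | h
  · exact Or.inr ⟨h.2, h.1⟩
  · exact Or.inl ⟨h.2, h.1⟩

lemma E.st {y u v : G} (h : D.E y u v) : St D.S u v := by
  rcases h with ⟨rfl, rfl⟩ | ⟨rfl, rfl⟩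
  · left; simp [S]
  · right; simp [S]

lemma E.ne {y u v : G} (h : D.E y u v) : D.cc y u ≠ D.cc y v := by
  rcases h with ⟨rfl, rfl⟩ | ⟨rfl, rfl⟩
  · simpa [cc] using D.c1
  · simpa [cc] using D.c1.symm

lemma E.det {y u v u' v' : G} (h : D.E y u v) (h' : D.E y u' v') (e : D.cc y u' ≠ D.cc y u) :
    u' = v ∧ v' = u := by
  rcases h with ⟨h1, h2⟩ | ⟨h1, h2⟩ <;> rcases h' with ⟨h3, h4⟩ | ⟨h3, h4⟩
  · exact absurd (by rw [h1, h3]) e
  · exact ⟨h3.trans h2.symm, h4.trans h1.symm⟩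
  · exact ⟨h3.trans h2.symm, h4.trans h1.symm⟩
  · exact absurd (by rw [h1, h3]) e

lemma E.mem {y u v : G} (h : D.E y u v) (hy : y ∈ D.H) : u ∈ D.H := by
  rcases h with ⟨rfl, -⟩ | ⟨rfl, -⟩
  · exact hy
  · exact D.H.mul_mem hy D.tH

lemma cc_G0 (y x g : G) (hg : g ∈ D.G0) : D.cc y (x * g) = D.cc y x := by
  have key : ∀ s ∈ ({D.a, D.b, D.k} : Set G), ∀ x, D.cc y (x * s) = D.cc y x := by
    rintro s (rfl | rfl | rfl) x <;> simp [cc, ← mul_assoc, D.ca, D.cb, D.ck]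
  induction hg using Subgroup.closure_induction_right with
  | one => simp
  | mul_right z hz s hs ih => rw [← mul_assoc, key s hs, ih]
  | mul_inv_cancel z hz s hs ih => rw [← ih, ← key s hs, mul_assoc, inv_mul_cancel_right]

lemma st_cases {x z : G} (h : St D.S x z) : x⁻¹ * z ∈ D.G0 ∨ ∃ y, D.E y x z := by
  rcases h with h | h
  · rcases h with h | h | h | h
    · exact Or.inl (h ▸ D.aG)
    · exact Or.inl (h ▸ D.bG)
    · exact Or.inl (h ▸ D.kG)
    · exact Or.inr ⟨x, Or.inl ⟨rfl, by rw [← h]; simp⟩⟩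
  · have e : x⁻¹ * z = (z⁻¹ * x)⁻¹ := by group
    rw [e, Subgroup.inv_mem_iff]
    rcases h with h | h | h | h
    · exact Or.inl (h ▸ D.aG)
    · exact Or.inl (h ▸ D.bG)
    · exact Or.inl (h ▸ D.kG)
    · exact Or.inr ⟨z, Or.inr ⟨by rw [← h]; simp, rfl⟩⟩

lemma cc_st {y x z : G} (h : St D.S x z) (hc : D.cc y x ≠ D.cc y z) : D.E y x z := by
  rcases st_cases h with h | ⟨w, ⟨rfl, rfl⟩ | ⟨rfl, rfl⟩⟩
  · exact absurd (by rw [← cc_G0 y x _ h]; simp) hc
  · left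
    have : y⁻¹ * x = 1 := by
      by_contra hn
      exact hc (by simp only [cc]; rw [← mul_assoc, D.ct _ hn])
    rw [inv_mul_eq_one] at this
    subst this; exact ⟨rfl, rfl⟩
  · right
    have : y⁻¹ * z = 1 := by
      by_contra hn
      exact hc (by simp only [cc]; rw [← mul_assoc, D.ct _ hn])
    rw [inv_mul_eq_one] at this
    subst this; exact ⟨rfl, rfl⟩

lemma cross {y x z : G} (h : D.cc y x ≠ D.cc y z) :
    ∃ u v, D.E y u v ∧ D.cc y u = D.cc y x ∧ wd D.S x u + 1 + wd D.S v z ≤ wd D.S x z := by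
  refine wd_ind D.hS z (fun x n => D.cc y x ≠ D.cc y z →
    ∃ u v, D.E y u v ∧ D.cc y u = D.cc y x ∧ wd D.S x u + 1 + wd D.S v z ≤ n) (by simp) ?_ x h
  intro x w n h1 h2 _ ih hc
  by_cases e : D.cc y x = D.cc y w
  · obtain ⟨u, v, a, b, c⟩ := ih (e ▸ hc)
    refine ⟨u, v, a, b.trans e.symm, ?_⟩
    have := wd_tri D.hS x w u
    have := wd_st h1
    omega
  · exact ⟨x, w, cc_st h1 e, rfl, by rw [wd_self]; omega⟩

lemma thru1 {y u v x : G} (h : D.E y u v) (hd : wd D.S x u ≤ wd D.S x v) :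
    D.cc y x = D.cc y u := by
  by_contra hn
  obtain ⟨u', v', a, b, c⟩ := cross hn
  obtain ⟨rfl, rfl⟩ := h.det a (by rw [b]; exact hn)
  omega

lemma thru {y u v x z : G} (h : D.E y u v) (hd : wd D.S x u + 1 + wd D.S v z ≤ wd D.S x z) :
    D.cc y x = D.cc y u ∧ D.cc y z = D.cc y v := by
  have h1 := wd_tri D.hS x v z
  have h2 := wd_tri D.hS x u z
  refine ⟨thru1 h (by omega), thru1 h.symm ?_⟩
  rw [wd_comm z v, wd_comm z u]; omega

lemma rH (g : G) : D.r g ∈ D.H := by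
  have : D.H.comap D.r = ⊤ := by
    rw [eq_top_iff, ← D.gen, Subgroup.closure_le]
    rintro s (rfl | rfl | rfl | rfl) <;>
      simp [D.ra, D.rb, D.rk, D.rt, D.aH, D.bH, D.tH]
  have h : g ∈ D.H.comap D.r := by rw [this]; trivial
  exact h

lemma rid {h : G} (hh : h ∈ D.H) : D.r h = h := by
  have : D.H ≤ D.r.eqLocus (MonoidHom.id G) := by
    rw [H, Subgroup.closure_le]
    rintro s (rfl | rfl | rfl)
    exacts [D.ra, D.rb, D.rt]
  exact this hh

lemma kH : D.k ∉ D.H := fun h => D.k1 (by rw [← rid h, D.rk])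

lemma r_st {x z : G} (h : St D.S x z) :
    (D.r x = D.r z ∧ x⁻¹ * z ∉ D.H) ∨
      (x⁻¹ * z ∈ D.H ∧ St {D.a, D.b, D.t} (D.r x) (D.r z)) := by
  have key : ∀ x z : G, x⁻¹ * z ∈ D.S → (D.r x = D.r z ∧ x⁻¹ * z ∉ D.H) ∨
      (x⁻¹ * z ∈ D.H ∧ St {D.a, D.b, D.t} (D.r x) (D.r z)) := by
    intro x z h
    have e : (D.r x)⁻¹ * D.r z = D.r (x⁻¹ * z) := by simp
    rcases h with h | h | h | h
    · exact Or.inr ⟨h ▸ D.aH, Or.inl (by rw [e, h, D.ra]; simp)⟩
    · exact Or.inr ⟨h ▸ D.bH, Or.inl (by rw [e, h, D.rb]; simp)⟩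
    · exact Or.inl ⟨by rw [← inv_mul_eq_one, e, h, D.rk], h ▸ kH⟩
    · exact Or.inr ⟨h ▸ D.tH, Or.inl (by rw [e, h, D.rt]; simp)⟩
  rcases h with h | h
  · exact key x z h
  · have e : x⁻¹ * z = (z⁻¹ * x)⁻¹ := by group
    rw [e, Subgroup.inv_mem_iff]
    exact (key z x h).imp (fun h => ⟨h.1.symm, h.2⟩) fun h => ⟨h.1, h.2.symm⟩

lemma st_sub {x z : G} (h : St {D.a, D.b, D.t} x z) : St D.S x z := by
  have : ({D.a, D.b, D.t} : Set G) ⊆ D.S := by rintro s (rfl | rfl | rfl) <;> simp [S]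
  exact h.imp (fun h => this h) fun h => this h

lemma r_le (x z : G) : wd D.S (D.r x) (D.r z) ≤ wd D.S x z :=
  wd_map D.hS D.hS D.r (fun x z h => by
    rcases r_st h with h | h
    · simp [h.1, wd_self]
    · exact wd_st (st_sub h.2)) x z

lemma r_lt (x z : G) (h : x⁻¹ * z ∉ D.H) : wd D.S (D.r x) (D.r z) < wd D.S x z := by
  refine wd_ind D.hS z (fun x n => x⁻¹ * z ∉ D.H → wd D.S (D.r x) (D.r z) < n)
    (by simp) ?_ x h
  intro x w n h1 h2 _ ih hx
  rcases r_st h1 with h3 | h3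
  · have := r_le (D := D) w z
    rw [h3.1]; omega
  · have := ih fun h => hx (by simpa [mul_assoc] using D.H.mul_mem h3.1 h)
    have := wd_tri D.hS (D.r x) (D.r w) (D.r z)
    have := wd_st (st_sub h3.2)
    omega

lemma convex {x y z : G} (hx : x ∈ D.H) (hz : z ∈ D.H)
    (h : wd D.S x y + wd D.S y z ≤ wd D.S x z) : y ∈ D.H := by
  by_contra hy
  have h1 := r_lt x y (fun h => hy (by simpa using D.H.mul_mem hx h))
  have h2 := r_le (D := D) y z
  have h3 := wd_tri D.hS x (D.r y) z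
  rw [rid hx] at h1
  rw [rid hz] at h2
  omega

lemma wdT (x y : D.H) : wd D.T x y = wd D.S x y := by
  apply le_antisymm
  · have := wd_map D.hS D.hT (fun g => ⟨D.r g, rH g⟩) (fun x z h => by
      rcases r_st h with h | h
      · simp [h.1, wd_self]
      · exact wd_st h.2) x y
    simpa [rid x.2, rid y.2] using this
  · exact wd_map D.hT D.hS Subtype.val (fun x z h => wd_st (st_sub h)) x y

lemma sep (x z : G) (h : ∀ y, wd D.S x y + wd D.S y z ≤ wd D.S x z → D.cc y x = D.cc y z) :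
    x⁻¹ * z ∈ D.G0 := by
  refine wd_ind D.hS z (fun x n => (∀ y, wd D.S x y + wd D.S y z ≤ n → D.cc y x = D.cc y z) →
    x⁻¹ * z ∈ D.G0) (by simp) ?_ x h
  intro x w n h1 h2 h3 ih h
  have h4 := wd_st h1
  rcases st_cases h1 with h5 | ⟨y, h5⟩
  · have := ih fun y hy => by
      rw [← h y (by have := wd_tri D.hS x w y; omega), ← cc_G0 y x _ h5]; simp
    simpa [mul_assoc] using D.G0.mul_mem h5 this
  · exfalso
    have h6 := thru (x := x) (z := z) h5 (by rw [wd_self]; omega)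
    apply h5.ne
    rw [← h6.2]
    apply h
    rcases h5 with ⟨rfl, -⟩ | ⟨-, rfl⟩
    · rw [wd_self]; omega
    · omega

lemma G0H {g : G} (h0 : g ∈ D.G0) (h1 : g ∈ D.H) : ∃ i j : ℤ, g = D.a ^ i * D.b ^ j := by
  rw [← rid h1]
  clear h1
  have cm : ∀ i j : ℤ, D.b ^ j * D.a ^ i = D.a ^ i * D.b ^ j := fun i j =>
    (D.comm.zpow_zpow i j).eq.symm
  induction h0 using Subgroup.closure_induction with
  | mem s hs =>
    rcases hs with rfl | rfl | rfl
    · exact ⟨1, 0, by simp [D.ra]⟩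
    · exact ⟨0, 1, by simp [D.rb]⟩
    · exact ⟨0, 0, by simp [D.rk]⟩
  | one => exact ⟨0, 0, by simp⟩
  | mul x y _ _ hx hy =>
    obtain ⟨i, j, hx⟩ := hx
    obtain ⟨i', j', hy⟩ := hy
    refine ⟨i + i', j + j', ?_⟩
    rw [map_mul, hx, hy, zpow_add, zpow_add, mul_assoc, ← mul_assoc (D.b ^ j), cm]
    simp only [mul_assoc]
  | inv x _ hx =>
    obtain ⟨i, j, hx⟩ := hx
    exact ⟨-i, -j, by rw [map_inv, hx, ← cm (-i)]; simp⟩

lemma exmin (K : Subgroup G) (g : G) : ∃ x ∈ K, ∀ y ∈ K, wd D.S x g ≤ wd D.S y g :=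
  ⟨Function.argminOn (fun x => wd D.S x g) (K : Set G) ⟨1, K.one_mem⟩,
    Function.argminOn_mem _ _ _, fun _ hy => Function.argminOn_le (fun x => wd D.S x g) _ hy⟩

lemma mal0 {h n : G} (hh : h ∈ D.G0) (hn : n ∉ D.G0) (hc : h * n = n * h) : h = 1 := by
  obtain ⟨z, hz, hm⟩ := exmin (D := D) D.G0 n
  obtain ⟨m, hd⟩ : ∃ m, wd D.S z n = m + 1 :=
    Nat.exists_eq_succ_of_ne_zero fun h0 => hn (wd_zero D.hS h0 ▸ hz)
  obtain ⟨w, h1, h2⟩ := wd_step D.hS hd
  rcases st_cases h1 with h3 | ⟨y, h3⟩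
  · have := hm w (by simpa using D.G0.mul_mem hz h3)
    omega
  have h4 := (thru (x := z) (z := n) h3 (by rw [wd_self]; omega)).2
  have h5 : D.cc y (h * z) = D.cc y z := by
    rw [← cc_G0 y z (z⁻¹ * (h * z)) (D.G0.mul_mem (D.G0.inv_mem hz) (D.G0.mul_mem hh hz))]
    simp
  have h6 : D.cc y (h * n) = D.cc y w := by rw [hc, cc_G0 y n h hh, h4]
  obtain ⟨u, v, a, b, c⟩ := cross (D := D) (y := y) (x := h * z) (z := h * n)
    (by rw [h5, h6]; exact h3.ne)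
  obtain ⟨rfl, rfl⟩ := h3.symm.det a (by rw [b, h5]; exact h3.ne)
  rw [wd_mul D.hS] at c
  have h7 := hm (h⁻¹ * u) (D.G0.mul_mem (D.G0.inv_mem hh) hz)
  rw [← wd_mul D.hS h (h⁻¹ * u), mul_inv_cancel_left] at h7
  have h8 := wd_tri D.hS u v (h * n)
  have h9 := wd_st h1
  have := wd_zero D.hS (x := h * u) (y := u) (by omega)
  simpa using this

lemma cc_H {y g w : G} (hy : y ∈ D.H) (hg : g ∉ D.H) (hw : w ∈ D.H) :
    D.cc y (g * w) = D.cc y g := by
  have key : ∀ w w', w ∈ D.H → St D.S (g * w) (g * w') → D.cc y (g * w') = D.cc y (g * w) := by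
    intro w w' hw h
    by_contra hn
    have := (cc_st h (Ne.symm hn)).mem hy
    exact hg (by simpa using D.H.mul_mem this (D.H.inv_mem hw))
  induction hw using Subgroup.closure_induction_right with
  | one => simp
  | mul_right z hz s hs ih =>
    rw [← ih]; exact key z _ hz (st_sub (Or.inl (by simpa [mul_assoc] using hs)))
  | mul_inv_cancel z hz s hs ih =>
    rw [← ih]; exact key z _ hz (st_sub (Or.inr (by simpa [mul_assoc] using hs)))

lemma mal {h g : G} (hh : h ∈ D.H) (hg : g ∉ D.H) (hc : g⁻¹ * h * g ∈ D.H) : h = 1 := by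
  obtain ⟨x, hx, hm⟩ := exmin (D := D) D.H g
  have h1 : ∀ y ∈ D.H, D.cc y x = D.cc y g := by
    intro y hy
    by_contra hn
    obtain ⟨u, v, a, b, c⟩ := cross hn
    have := hm v (a.symm.mem hy)
    omega
  have h2 : x⁻¹ * (h * x) ∈ D.G0 := by
    apply sep
    intro y hy
    have hy := convex hx (D.H.mul_mem hh hx) hy
    have := h1 (h⁻¹ * y) (D.H.mul_mem (D.H.inv_mem hh) hy)
    have e : ∀ z, D.cc (h⁻¹ * y) z = D.cc y (h * z) := fun z => by simp [cc, mul_assoc]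
    rw [e, e] at this
    rw [this, h1 y hy, ← cc_H hy hg hc]
    simp [mul_assoc]
  have h3 : x⁻¹ * (h * x) ∈ D.H := D.H.mul_mem (D.H.inv_mem hx) (D.H.mul_mem hh hx)
  obtain ⟨i, j, hij⟩ := G0H h2 h3
  set n := x⁻¹ * g * (D.r (x⁻¹ * g))⁻¹ with hn
  have h4 : D.r n = 1 := by rw [hn, map_mul, map_inv, rid (rH _), mul_inv_cancel]
  have h5 : n⁻¹ * (x⁻¹ * (h * x)) * n ∈ D.H := by
    have : n⁻¹ * (x⁻¹ * (h * x)) * n = D.r (x⁻¹ * g) * (g⁻¹ * h * g) * (D.r (x⁻¹ * g))⁻¹ := by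
      rw [hn]; group
    rw [this]
    exact D.H.mul_mem (D.H.mul_mem (rH _) hc) (D.H.inv_mem (rH _))
  have h6 := rid h5
  rw [map_mul, map_mul, map_inv, h4, rid h3, inv_one, one_mul, mul_one] at h6
  have h7 : x⁻¹ * (h * x) * n = n * (x⁻¹ * (h * x)) := by
    conv_rhs => rw [h6]
    group
  have h8 : x⁻¹ * (h * x) = 1 := by
    by_cases h0 : n ∈ D.G0
    · rcases D.free n h0 h4 i j (by rw [← hij]; exact h7) with h | h
      · exfalso
        apply hg
        rw [hn, mul_inv_eq_one, inv_mul_eq_iff_eq_mul] at h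
        rw [h]; exact D.H.mul_mem hx (rH _)
      · rw [hij, h]
    · exact mal0 h2 h0 h7
  rw [inv_mul_eq_one] at h8
  simpa using h8

end Dat

end Pool.Agent.H.MP_1d7d98_al
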