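import Pool.Agent.H.MP_1d7d98_al.B

set_option autoImplicit false

namespace Pool.Agent.H.MP_1d7d98_al

lemma dist_cast (i j : ℕ) : ((Nat.dist i j : ℕ) : ℤ) = |(i : ℤ) - j| := by
  unfold Nat.dist
  rcases abs_cases ((i : ℤ) - j) with h | h <;> omega

namespace Dat

variable {G : Type} [Group G] {D : Dat G}

def Win (D : Dat G) (L : ℕ) (γ : ℕ → G) : Prop :=
  ∀ i, ∃ j, i ≤ j ∧ j < i + L ∧ ∃ y, D.E y (γ j) (γ (j + 1))

lemma E.two {y u v u' v' : G} (h : D.E y u v) (h' : D.E y u' v') : u' = u ∨ u' = v := by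
  by_cases e : D.cc y u' = D.cc y u
  · left; exact (h.symm.det h' (by rw [e]; exact h.ne)).1
  · right; exact (h.det h' e).1

lemma geo_thru {γ : ℕ → G} (hg : Geo D.S Set.univ γ) {y : G} {j m m' : ℕ}
    (h : D.E y (γ j) (γ (j + 1))) (h1 : m ≤ j) (h2 : j < m') :
    D.cc y (γ m) = D.cc y (γ j) ∧ D.cc y (γ m') = D.cc y (γ (j + 1)) := by
  apply thru h
  simp only [hg.2 _ trivial _ trivial, Nat.dist]
  omega

lemma morse_of_win (L : ℕ) : ∃ N, ∀ γ, Geo D.S Set.univ γ → D.Win L γ →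
    ∀ I : Set ℕ, I.OrdConnected → Morse D.S N (γ '' I) := by
  refine ⟨fun l e => l * (l * (2 * (l + e + L) + 1 + e)) + e + (l + e + L), ?_⟩
  rintro γ hg hw I hI l e a b q hl he hab hq ⟨p, hp, hpa⟩ ⟨p', hp', hpb⟩ s hs
  have hL : (0 : ℝ) ≤ L := L.cast_nonneg
  set B : ℝ := l + e + L with hB
  set M : ℝ := l * (2 * B + 1 + e) with hM
  have B0 : 0 ≤ B := by positivity
  have low : ∀ s ∈ Set.Icc a b, ∀ t ∈ Set.Icc a b, ∀ d : ℝ, wd D.S (q s) (q t) ≤ d →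
      d ≤ 2 * B + 1 → |s - t| ≤ M := by
    intro s hs t ht d h1 h2
    have := (hq s hs t ht).1
    have h3 : |s - t| / l ≤ 2 * B + 1 + e := by linarith
    rw [div_le_iff₀ (by linarith)] at h3
    linarith
  have gd : ∀ i j, wd D.S (γ i) (γ j) = Nat.dist i j := fun i j => hg.2 _ trivial _ trivial
  have c1 : ∀ j, min p p' ≤ j → j ≤ max p p' → ∃ σ ∈ Set.Icc a b, (wd D.S (q σ) (γ j) : ℝ) ≤ B := by
    intro j h1 h2
    obtain ⟨j', h3, h4, y, h5⟩ := hw j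
    by_cases h6 : j' < max p p'
    · have h7 := geo_thru hg h5 (h1.trans h3) h6
      have h8 : D.cc y (q a) ≠ D.cc y (q b) := by
        have := h5.ne
        rw [← h7.1, ← h7.2] at this
        rw [← hpa, ← hpb]
        rcases le_total p p' with h | h
        · rwa [min_eq_left h, max_eq_right h] at this
        · rw [min_eq_right h, max_eq_left h] at this; exact this.symm
      obtain ⟨s, hs, t, ht, h9, h10⟩ := jump (fun s => D.cc y (q s)) a b hab h8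
      obtain ⟨u, v, e1, -, e2⟩ := cross h10
      refine ⟨s, hs, ?_⟩
      have e3 := (hq s hs t ht).2
      have e4 : wd D.S u (γ j) ≤ L := by
        rcases h5.two e1 with rfl | rfl <;> rw [gd, Nat.dist] <;> omega
      have e5 := wd_tri D.hS (q s) u (γ j)
      have e6 : wd D.S (q s) (γ j) ≤ wd D.S (q s) (q t) + L := by omega
      have e7 : (wd D.S (q s) (γ j) : ℝ) ≤ wd D.S (q s) (q t) + L := by exact_mod_cast e6
      nlinarith
    · have e4 : wd D.S (γ (max p p')) (γ j) ≤ L := by rw [gd, Nat.dist]; omega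
      have e5 : (wd D.S (γ (max p p')) (γ j) : ℝ) ≤ B := by
        have : (wd D.S (γ (max p p')) (γ j) : ℝ) ≤ L := by exact_mod_cast e4
        linarith
      rcases le_total p p' with h | h
      · rw [max_eq_right h, hpb] at e5; exact ⟨b, ⟨hab, le_rfl⟩, e5⟩
      · rw [max_eq_left h, hpa] at e5; exact ⟨a, ⟨le_rfl, hab⟩, e5⟩
  choose! σ hσ hd using c1
  have M0 : 0 ≤ M := by positivity
  have c2 : ∃ j, min p p' ≤ j ∧ j ≤ max p p' ∧ |s - σ j| ≤ M := by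
    have a1 := low a ⟨le_rfl, hab⟩ _ (hσ p (min_le_left _ _) (le_max_left _ _)) B
      (by rw [wd_comm, ← hpa]; exact hd p (min_le_left _ _) (le_max_left _ _)) (by linarith)
    have a2 := low b ⟨hab, le_rfl⟩ _ (hσ p' (min_le_right _ _) (le_max_right _ _)) B
      (by rw [wd_comm, ← hpb]; exact hd p' (min_le_right _ _) (le_max_right _ _)) (by linarith)
    rw [abs_le] at a1 a2
    by_cases b1 : s ≤ σ p
    · exact ⟨p, min_le_left _ _, le_max_left _ _, abs_le.2 ⟨by linarith [hs.1, a1.1], by linarith⟩⟩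
    by_cases b2 : σ p' ≤ s
    · exact ⟨p', min_le_right _ _, le_max_right _ _,
        abs_le.2 ⟨by linarith, by linarith [hs.2, a2.2]⟩⟩
    push Not at b1 b2
    refine ivt σ M s M0 _ _ min_le_max ?_ ?_
    · intro j h1 h2
      refine low _ (hσ j h1 h2.le) _ (hσ (j + 1) (by omega) h2) _ ?_ le_rfl
      have e1 := hd j h1 h2.le
      have e2 := hd (j + 1) (by omega) h2
      have e3 := wd_tri D.hS (q (σ j)) (γ j) (q (σ (j + 1)))
      have e4 := wd_tri D.hS (γ j) (γ (j + 1)) (q (σ (j + 1)))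
      rw [gd, wd_comm (γ (j + 1)), Nat.dist] at e4
      have e5 : wd D.S (q (σ j)) (q (σ (j + 1))) ≤
        wd D.S (q (σ j)) (γ j) + 1 + wd D.S (q (σ (j + 1))) (γ (j + 1)) := by omega
      have e6 : (wd D.S (q (σ j)) (q (σ (j + 1))) : ℝ) ≤
        wd D.S (q (σ j)) (γ j) + 1 + wd D.S (q (σ (j + 1))) (γ (j + 1)) := by exact_mod_cast e5
      linarith
    · rcases le_total p p' with h | h
      · rw [min_eq_left h, max_eq_right h]; nlinarith
      · rw [min_eq_right h, max_eq_left h]; nlinarith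
  obtain ⟨j, h1, h2, h3⟩ := c2
  refine ⟨γ j, ⟨j, hI.uIcc_subset hp hp' ⟨h1, h2⟩, rfl⟩, ?_⟩
  have e1 := (hq s hs _ (hσ j h1 h2)).2
  have e2 := hd j h1 h2
  have e3 : (wd D.S (q s) (γ j) : ℝ) ≤ wd D.S (q s) (q (σ j)) + wd D.S (q (σ j)) (γ j) := by
    exact_mod_cast wd_tri D.hS _ _ _
  have e4 : l * |s - σ j| ≤ l * M := by gcongr
  show _ ≤ l * M + e + B
  linarith

lemma sgn (i : ℤ) : ∃ s : ℤ, s * i = |i| ∧ |s| = 1 ∧ s * s = 1 := by
  rcases abs_cases i with h | h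
  · exact ⟨1, by omega, rfl, rfl⟩
  · exact ⟨-1, by omega, rfl, rfl⟩

lemma hom_le (i j l : ℤ) (hi : |i| ≤ 1) (hj : |j| ≤ 1) (hl : |l| ≤ 1) : ∃ u : G → ℤ,
    (∀ x y, u (x * y) = u x + u y) ∧ (∀ m n : ℤ, u (D.a ^ m * D.b ^ n) = i * m + j * n) ∧
    (∀ n : ℤ, u (D.t ^ n) = l * n) ∧ ∀ x y, |u y - u x| ≤ wd D.S x y := by
  obtain ⟨u, h1, h2, h3, h4⟩ := D.hom i j l
  refine ⟨fun x => (u x).toAdd, by simp, fun m n => by simp [h1, h2, mul_comm],
    fun n => by simp [h4, mul_comm], wd_hom D.hS u ?_⟩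
  rintro s (rfl | rfl | rfl | rfl) <;> simp [*]

lemma wd_ab (x : G) (m n : ℤ) : (wd D.S x (x * (D.a ^ m * D.b ^ n)) : ℤ) ≤ |m| + |n| := by
  have h1 := wd_pow D.hS D.a (by simp [S]) m x
  have h2 := wd_pow D.hS D.b (by simp [S]) n (x * D.a ^ m)
  have h3 := wd_tri D.hS x (x * D.a ^ m) (x * D.a ^ m * D.b ^ n)
  rw [← mul_assoc]
  omega

lemma geoT {γ : ℕ → D.H} {I : Set ℕ} : Geo D.T I γ ↔ Geo D.S I (fun n => (γ n : G)) := by
  simp only [Geo, wdT, OneMemClass.coe_eq_one]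

lemma win_of_morse (N : ℝ → ℝ → ℝ) : ∃ L, ∀ γ : ℕ → D.H, Geo D.T Set.univ γ →
    Morse D.T N (Set.range γ) → D.Win L fun n => (γ n : G) := by
  obtain ⟨R, hR⟩ := exists_nat_gt (N 3 3)
  refine ⟨6 * R, fun γ hg hm i => ?_⟩
  by_contra hn
  push Not at hn
  have gd : ∀ i j, (wd D.S (γ i) (γ j) : ℤ) = |(i : ℤ) - j| := fun i j => by
    rw [(geoT.1 hg).2 _ trivial _ trivial, dist_cast]
  have g0 : ∀ n, n ≤ 6 * R → (γ i : G)⁻¹ * γ (i + n) ∈ D.G0 := by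
    intro n h
    induction n with
    | zero => simp
    | succ n ih =>
      have h1 : wd D.S (γ (i + n)) (γ (i + n + 1)) = 1 := by
        have := gd (i + n) (i + n + 1)
        simp at this; exact_mod_cast this
      rcases st_cases (wd_one D.hS h1) with h2 | ⟨y, h2⟩
      · simpa [mul_assoc, add_assoc] using D.G0.mul_mem (ih (by omega)) h2
      · exact absurd h2 (hn (i + n) (by omega) (by omega) y)
  have gA : ∀ n, n ≤ 6 * R → ∃ α β : ℤ, (γ (i + n) : G) = γ i * (D.a ^ α * D.b ^ β) := by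
    intro n h
    obtain ⟨α, β, e⟩ := G0H (g0 n h) (D.H.mul_mem (D.H.inv_mem (γ i).2) (γ _).2)
    exact ⟨α, β, by rw [← e]; simp⟩
  obtain ⟨α, β, e0⟩ := gA (6 * R) le_rfl
  obtain ⟨s1, a1, a2, a3⟩ := sgn α
  obtain ⟨s2, b1, b2, b3⟩ := sgn β
  obtain ⟨u, u1, u2, -, u3⟩ := hom_le (D := D) s1 s2 0 a2.le b2.le (by simp)
  obtain ⟨w, w1, w2, -, w3⟩ := hom_le (D := D) s1 (-s2) 0 a2.le (by simp [b2]) (by simp)
  have U : ∀ n, n ≤ 6 * R → u (γ (i + n)) = u (γ i) + n := by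
    intro n h
    have c1 := wd_ab (D := D) (γ i) α β
    rw [← e0, gd] at c1
    have c2 : u (γ (i + 6 * R)) = u (γ i) + (|α| + |β|) := by rw [e0, u1, u2, a1, b1]
    have c3 := (abs_le.1 (u3 (γ i) (γ (i + n)))).2
    have c4 := (abs_le.1 (u3 (γ (i + n)) (γ (i + 6 * R)))).2
    rw [gd] at c3 c4
    rw [abs_of_nonpos (by omega)] at c1 c3 c4
    push_cast at *
    omega
  let v : ℤ → D.H := fun n => ⟨D.a ^ (s1 * n) * D.b ^ (-s2 * n),
    D.H.mul_mem (D.H.zpow_mem D.aH _) (D.H.zpow_mem D.bH _)⟩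
  have cm : ∀ i j i' j' : ℤ, D.a ^ i * D.b ^ j * (D.a ^ i' * D.b ^ j') =
      D.a ^ (i + i') * D.b ^ (j + j') := fun i j i' j' => by
    rw [zpow_add, zpow_add, mul_assoc, ← mul_assoc (D.b ^ j), ← (D.comm.zpow_zpow i' j).eq]
    simp only [mul_assoc]
  have uv : ∀ (x : G) n, u (x * v n) = u x := fun x n => by
    rw [u1, u2, ← mul_assoc, a3, neg_mul, mul_neg, ← mul_assoc, b3]; ring
  have wv : ∀ (x : G) n, w (x * v n) = w x + 2 * n := fun x n => by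
    rw [w1, w2, ← mul_assoc, a3, ← mul_assoc, neg_mul_neg, b3]; ring
  have dv : ∀ (x : G) n n', (wd D.S (x * v n) (x * v n') : ℤ) ≤ 2 * |n - n'| := by
    intro x n n'
    have := wd_ab (D := D) (x * v n) (s1 * (n' - n)) (-s2 * (n' - n))
    rw [mul_assoc, cm, abs_mul, abs_mul, abs_neg, a2, b2, abs_sub_comm,
      show s1 * n + s1 * (n' - n) = s1 * n' by ring,
      show -s2 * n + -s2 * (n' - n) = -s2 * n' by ring] at this
    show (wd D.S (x * v n) (x * (D.a ^ (s1 * n') * D.b ^ (-s2 * n'))) : ℤ) ≤ _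
    omega
  have dg : ∀ j, j ≤ 6 * R → ∀ j', j' ≤ 6 * R → ∀ n,
      wd D.S (γ (i + j) * v n) (γ (i + j') * v n) = wd D.S (γ (i + j)) (γ (i + j')) := by
    intro j hj j' hj' n
    obtain ⟨α, β, e1⟩ := gA j hj
    obtain ⟨α', β', e2⟩ := gA j' hj'
    have key : ∀ α β : ℤ, (γ i : G) * (D.a ^ α * D.b ^ β) * v n =
        γ i * v n * (γ i : G)⁻¹ * (γ i * (D.a ^ α * D.b ^ β)) := fun α β => by
      rw [mul_assoc (_ * _) _⁻¹, inv_mul_cancel_left, mul_assoc, mul_assoc (γ i : G)]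
      simp only [v, cm, add_comm]
    rw [e1, e2, key, key, wd_mul D.hS]
  let q : ℝ → D.H := fun s => γ (i + (2 * R + ⌊s⌋₊)) * v ⌊min s (2 * R - s)⌋
  have R0 : (0 : ℝ) ≤ R := R.cast_nonneg
  have hq : QG D.T 3 3 0 (2 * R) q := by
    intro s hs t ht
    have f1 : ∀ s ∈ Set.Icc (0 : ℝ) (2 * R), 2 * R + ⌊s⌋₊ ≤ 6 * R := by
      intro s hs
      have : ⌊s⌋₊ ≤ 2 * R := Nat.floor_le_of_le (by exact_mod_cast hs.2)
      omega
    have f2 : ∀ x y : ℝ, |((⌊x⌋ : ℝ)) - ⌊y⌋| ≤ |x - y| + 1 ∧ |x - y| ≤ |(⌊x⌋ : ℝ) - ⌊y⌋| + 1 := by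
      intro x y
      have := Int.floor_le x; have := Int.floor_le y
      have := Int.lt_floor_add_one x; have := Int.lt_floor_add_one y
      constructor <;> rcases abs_cases ((⌊x⌋ : ℝ) - ⌊y⌋) with h | h <;>
        rcases abs_cases (x - y) with h' | h' <;> linarith [h.1, h.2, h'.1, h'.2]
    have f3 : |min s (2 * R - s) - min t (2 * R - t)| ≤ |s - t| := by
      refine (abs_min_sub_min_le_max _ _ _ _).trans (max_le le_rfl ?_)
      rw [abs_sub_comm]; simp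
    have f4 : ((⌊s⌋₊ : ℕ) : ℤ) = ⌊s⌋ := Int.natCast_floor_eq_floor hs.1
    have f5 : ((⌊t⌋₊ : ℕ) : ℤ) = ⌊t⌋ := Int.natCast_floor_eq_floor ht.1
    rw [wdT]
    simp only [q, Subgroup.coe_mul]
    constructor
    · have := u3 (γ (i + (2 * R + ⌊s⌋₊)) * v ⌊min s (2 * R - s)⌋)
        (γ (i + (2 * R + ⌊t⌋₊)) * v ⌊min t (2 * R - t)⌋)
      rw [uv, uv, U _ (f1 s hs), U _ (f1 t ht)] at this
      push_cast at this
      rw [f4, f5, add_sub_add_left_eq_sub, add_sub_add_left_eq_sub, abs_sub_comm] at this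
      have h2 := (Int.cast_le (R := ℝ)).2 this
      push_cast at h2
      have := (f2 s t).2
      have := abs_nonneg (s - t)
      linarith
    · have e1 := dg _ (f1 s hs) _ (f1 t ht) ⌊min s (2 * R - s)⌋
      have e2 := dv (γ (i + (2 * R + ⌊t⌋₊))) ⌊min s (2 * R - s)⌋ ⌊min t (2 * R - t)⌋
      have e3 := wd_tri D.hS (γ (i + (2 * R + ⌊s⌋₊)) * v ⌊min s (2 * R - s)⌋ : G)
        (γ (i + (2 * R + ⌊t⌋₊)) * v ⌊min s (2 * R - s)⌋)
        (γ (i + (2 * R + ⌊t⌋₊)) * v ⌊min t (2 * R - t)⌋)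
      have e4 := gd (i + (2 * R + ⌊s⌋₊)) (i + (2 * R + ⌊t⌋₊))
      push_cast at e4
      rw [f4, f5, add_sub_add_left_eq_sub, add_sub_add_left_eq_sub] at e4
      have e5 : (wd D.S (γ (i + (2 * R + ⌊s⌋₊)) * v ⌊min s (2 * R - s)⌋ : G)
        (γ (i + (2 * R + ⌊t⌋₊)) * v ⌊min t (2 * R - t)⌋) : ℤ) ≤ |⌊s⌋ - ⌊t⌋| +
          2 * |⌊min s (2 * R - s)⌋ - ⌊min t (2 * R - t)⌋| := by omega
      have e6 : (wd D.S (γ (i + (2 * R + ⌊s⌋₊)) * v ⌊min s (2 * R - s)⌋ : G)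
        (γ (i + (2 * R + ⌊t⌋₊)) * v ⌊min t (2 * R - t)⌋) : ℝ) ≤ |(⌊s⌋ : ℝ) - ⌊t⌋| +
          2 * |(⌊min s (2 * R - s)⌋ : ℝ) - ⌊min t (2 * R - t)⌋| := by exact_mod_cast e5
      have := (f2 s t).1
      have := (f2 (min s (2 * R - s)) (min t (2 * R - t))).1
      linarith
  have v0 : v 0 = 1 := by simp [v]
  obtain ⟨_, ⟨j, rfl⟩, hj⟩ := hm 3 3 0 (2 * R) q (by norm_num) (by norm_num) (by positivity) hq
    ⟨_, by simp only [q]; rw [min_eq_left (by linarith), Int.floor_zero, v0, mul_one]⟩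
    ⟨_, by simp only [q]; rw [min_eq_right (by linarith), sub_self, Int.floor_zero, v0, mul_one]⟩
    R ⟨R0, by linarith⟩
  have e1 : (q R : G) = γ (i + 3 * R) * v R := by
    simp only [q]
    rw [min_eq_left (by linarith), Nat.floor_natCast, Int.floor_natCast,
      show 2 * R + R = 3 * R by ring, Subgroup.coe_mul]
  rw [wdT, e1] at hj
  have e2 : wd D.S (γ (i + 3 * R) * v R) (γ j) < R := by exact_mod_cast hj.trans_lt hR
  by_cases hj : i ≤ j ∧ j ≤ i + 6 * R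
  · obtain ⟨n, rfl⟩ := Nat.exists_eq_add_of_le hj.1
    have c1 := u3 (γ (i + 3 * R) * v R) (γ (i + n))
    have c2 := w3 (γ (i + 3 * R) * v R) (γ (i + n))
    have c3 := w3 (γ (i + 3 * R)) (γ (i + n))
    rw [uv, U _ (by omega), U _ (by omega)] at c1
    rw [wv] at c2
    rw [gd] at c3
    rw [abs_le] at c1 c2 c3
    push_cast at *
    rcases abs_cases ((i : ℤ) + 3 * R - (i + n)) with h | h <;> omega
  · have c1 := dv (γ (i + 3 * R)) 0 R
    rw [v0, OneMemClass.coe_one, mul_one] at c1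
    have c2 := wd_tri D.hS (γ (i + 3 * R) : G) (γ (i + 3 * R) * v R) (γ j)
    have c3 := gd (i + 3 * R) j
    rw [abs_of_nonpos (by omega)] at c1
    push_cast at c3
    rcases abs_cases ((i : ℤ) + 3 * R - j) with h | h <;> omega

lemma ray_in_H {β γ : ℕ → G} (hβ : Geo D.S Set.univ β) (hγ : Geo D.S Set.univ γ)
    (hH : ∀ n, γ n ∈ D.H) {L : ℕ} (hw : D.Win L γ)
    (hn : Near D.S (Set.range γ) (Set.range β)) (n : ℕ) : β n ∈ D.H := by
  obtain ⟨C, hC, -⟩ := hn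
  obtain ⟨j, h1, -, y, h2⟩ := hw n
  obtain ⟨_, ⟨m, rfl⟩, h3⟩ := hC _ ⟨j + C + 1, rfl⟩
  have h4 := geo_thru hγ h2 (Nat.zero_le j) (show j < j + C + 1 by omega)
  have h5 : D.cc y (γ (j + C + 1)) = D.cc y (β m) := by
    by_contra h
    obtain ⟨u, v, a, b, c⟩ := cross h
    obtain ⟨rfl, -⟩ := h2.det a (by rw [b, h4.2]; exact h2.ne.symm)
    rw [hγ.2 _ trivial _ trivial, Nat.dist] at c
    omega
  have h6 : ∃ i, D.cc y (β i) ≠ D.cc y (β (i + 1)) := by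
    by_contra h
    push Not at h
    have : ∀ i, D.cc y (β i) = D.cc y (β 0) := fun i => by
      induction i with
      | zero => rfl
      | succ i ih => rw [← h, ih]
    exact h2.ne (by rw [← h4.1, ← h4.2, h5, this, hβ.1, hγ.1])
  obtain ⟨i, hi⟩ := h6
  have h7 := cc_st (wd_one D.hS (by rw [hβ.2 _ trivial _ trivial]; simp [Nat.dist])) hi
  have h8 : β i ∈ D.H ∧ n ≤ i := by
    have e1 := hβ.2 0 trivial i trivial
    rw [hβ.1, ← hγ.1] at e1
    rcases h2.two h7 with e | e <;> rw [e, hγ.2 _ trivial _ trivial, Nat.dist, Nat.dist] at e1 <;>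
      exact ⟨e ▸ hH _, by omega⟩
  refine convex D.H.one_mem h8.1 ?_
  rw [← hβ.1]
  simp only [hβ.2 _ trivial _ trivial, Nat.dist]
  omega

end Dat

end Pool.Agent.H.MP_1d7d98_al
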