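import Mathlib

set_option autoImplicit false

namespace Pool.Agent.H.MP_1d7d98_al

variable {G : Type} [Group G]

def cay (S : Set G) : SimpleGraph G := SimpleGraph.fromRel fun x y => x⁻¹ * y ∈ S

noncomputable def wd (S : Set G) (x y : G) : ℕ := (cay S).dist x y

def QG (S : Set G) (l e a b : ℝ) (q : ℝ → G) : Prop :=
  ∀ s ∈ Set.Icc a b, ∀ t ∈ Set.Icc a b,
    |s - t| / l - e ≤ wd S (q s) (q t) ∧ (wd S (q s) (q t) : ℝ) ≤ l * |s - t| + e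

def Morse (S : Set G) (N : ℝ → ℝ → ℝ) (Y : Set G) : Prop :=
  ∀ l e a b : ℝ, ∀ q : ℝ → G, 1 ≤ l → 0 ≤ e → a ≤ b → QG S l e a b q → q a ∈ Y → q b ∈ Y →
    ∀ s ∈ Set.Icc a b, ∃ y ∈ Y, (wd S (q s) y : ℝ) ≤ N l e

def Geo (S : Set G) (I : Set ℕ) (γ : ℕ → G) : Prop :=
  γ 0 = 1 ∧ ∀ i ∈ I, ∀ j ∈ I, wd S (γ i) (γ j) = Nat.dist i j

def Near (S Y Z : Set G) : Prop :=
  ∃ C : ℕ, (∀ y ∈ Y, ∃ z ∈ Z, wd S y z ≤ C) ∧ ∀ z ∈ Z, ∃ y ∈ Y, wd S y z ≤ C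

def NRay (S : Set G) (N : ℝ → ℝ → ℝ) : Type :=
  {γ : ℕ → G // Geo S Set.univ γ ∧ Morse S N (Set.range γ)}

instance (S : Set G) (N : ℝ → ℝ → ℝ) : TopologicalSpace (NRay S N) :=
  .induced Subtype.val (@Pi.topologicalSpace ℕ (fun _ => G) fun _ => ⊥)

def MRay (S : Set G) : Type :=
  {γ : ℕ → G // Geo S Set.univ γ ∧ ∃ N, Morse S N (Set.range γ)}

def Bd (S : Set G) : Type :=
  Quot fun β γ : MRay S => Near S (Set.range β.1) (Set.range γ.1)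

def cls {S : Set G} {N : ℝ → ℝ → ℝ} (γ : NRay S N) : Bd S := Quot.mk _ ⟨γ.1, γ.2.1, N, γ.2.2⟩

instance (S : Set G) : TopologicalSpace (Bd S) :=
  ⨆ N, .coinduced (cls : NRay S N → Bd S) inferInstance

def Lim (S : Set G) (H : Subgroup G) : Set (Bd S) :=
  {ξ | ∃ (N : ℝ → ℝ → ℝ) (γ : NRay S N) (len : ℕ → ℕ) (g : ℕ → ℕ → G), cls γ = ξ ∧
    (∀ n, g n (len n) ∈ H ∧ Geo S (Set.Iic (len n)) (g n) ∧ Morse S N (g n '' Set.Iic (len n))) ∧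
    ∀ i, ∀ᶠ n in Filter.atTop, i ≤ len n ∧ g n i = γ.1 i}

def HypEmb (H : Subgroup G) : Prop :=
  ∃ X : Set G, Subgroup.closure (X ∪ H) = ⊤ ∧
    (∃ δ : ℕ, ∀ x y z w : G, wd (X ∪ H) x y + wd (X ∪ H) z w ≤
      max (wd (X ∪ H) x z + wd (X ∪ H) y w) (wd (X ∪ H) x w + wd (X ∪ H) y z) + δ) ∧
    ∀ n : ℕ, {h : G | h ∈ H ∧
      (SimpleGraph.fromRel fun x y : G => x⁻¹ * y ∈ X ∨ (x⁻¹ * y ∈ H ∧ x ∉ H)).edist 1 h ≤ n}.Finite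

end Pool.Agent.H.MP_1d7d98_al
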