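import Pool.Agent.H.MP_1d7d98_al.C
import Pool.Agent.H.MP_ee56b3_al.A

set_option autoImplicit false

namespace Pool.Agent.H.MP_1d7d98_al

variable {G : Type} [Group G]

lemma near_eqv {S : Set G} (hS : Subgroup.closure S = ⊤) :
    Equivalence fun β γ : MRay S => Near S (Set.range β.1) (Set.range γ.1) where
  refl β := ⟨0, fun y hy => ⟨y, hy, (wd_self y).le⟩, fun y hy => ⟨y, hy, (wd_self y).le⟩⟩
  symm := fun ⟨C, h1, h2⟩ => ⟨C, fun y hy => (h2 y hy).imp fun z hz => ⟨hz.1, wd_comm y z ▸ hz.2⟩,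
    fun y hy => (h1 y hy).imp fun z hz => ⟨hz.1, wd_comm z y ▸ hz.2⟩⟩
  trans := by
    rintro α β γ ⟨C, h1, h2⟩ ⟨C', h3, h4⟩
    refine ⟨C + C', fun x hx => ?_, fun z hz => ?_⟩
    · obtain ⟨y, hy, e1⟩ := h1 x hx
      obtain ⟨z, hz, e2⟩ := h3 y hy
      exact ⟨z, hz, (wd_tri hS x y z).trans (add_le_add e1 e2)⟩
    · obtain ⟨y, hy, e1⟩ := h4 z hz
      obtain ⟨x, hx, e2⟩ := h2 y hy
      exact ⟨x, hx, (wd_tri hS x y z).trans (add_le_add e2 e1)⟩

lemma mk_eq {S : Set G} (hS : Subgroup.closure S = ⊤) {β γ : MRay S} :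
    (Quot.mk _ β : Bd S) = Quot.mk _ γ ↔ Near S (Set.range β.1) (Set.range γ.1) :=
  Quot.eq.trans (near_eqv hS).eqvGen_iff

lemma cont_ev {S : Set G} {N : ℝ → ℝ → ℝ} {K : Type} (t : TopologicalSpace K) (f : G → K)
    (n : ℕ) : Continuous fun γ : NRay S N => f (γ.1 n) := by
  letI : TopologicalSpace G := ⊥
  exact continuous_bot.comp ((continuous_apply n).comp continuous_induced_dom)

lemma cont_of {S : Set G} {N : ℝ → ℝ → ℝ} {Y : Type} [TopologicalSpace Y] (f : Y → NRay S N)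
    (h : ∀ n, @Continuous Y G _ ⊥ fun y => (f y).1 n) : Continuous f := by
  letI : TopologicalSpace G := ⊥
  exact continuous_induced_rng.2 (continuous_pi h)

lemma cont_cls {S : Set G} {N : ℝ → ℝ → ℝ} : Continuous (cls : NRay S N → Bd S) :=
  continuous_iSup_rng (i := N) continuous_coinduced_rng

namespace Dat

variable {D : Dat G}

lemma up (N : ℝ → ℝ → ℝ) : ∃ N', ∀ γ : NRay D.T N, ∀ I : Set ℕ, I.OrdConnected →
    Morse D.S N' ((fun n => (γ.1 n : G)) '' I) := by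
  obtain ⟨L, hL⟩ := win_of_morse (D := D) N
  obtain ⟨N', h⟩ := morse_of_win (D := D) L
  exact ⟨N', fun γ => h _ (geoT.1 γ.2.1) (hL _ γ.2.1 γ.2.2)⟩

lemma down {N : ℝ → ℝ → ℝ} {γ : ℕ → D.H} (h : Morse D.S N (Set.range fun n => (γ n : G))) :
    Morse D.T N (Set.range γ) := by
  rintro l e a b q hl he hab hq ⟨i, hi⟩ ⟨j, hj⟩ s hs
  obtain ⟨_, ⟨m, rfl⟩, hm⟩ := h l e a b (fun s => q s) hl he hab
    (fun s hs t ht => by simpa only [wdT] using hq s hs t ht) ⟨i, congrArg _ hi⟩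
    ⟨j, congrArg _ hj⟩ s hs
  exact ⟨_, ⟨m, rfl⟩, by rwa [wdT]⟩

lemma nearT {β γ : ℕ → D.H} : Near D.T (Set.range β) (Set.range γ) ↔
    Near D.S (Set.range fun n => (β n : G)) (Set.range fun n => (γ n : G)) := by
  simp only [Near, Set.forall_mem_range, Set.exists_range_iff, wdT]

def inc (γ : MRay D.T) : MRay D.S := ⟨fun n => γ.1 n, geoT.1 γ.2.1, by
  obtain ⟨N, hN⟩ := γ.2.2
  obtain ⟨N', h⟩ := up (D := D) N
  exact ⟨N', by simpa using h ⟨γ.1, γ.2.1, hN⟩ _ Set.ordConnected_univ⟩⟩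

def phi : Bd D.T → Bd D.S := Quot.map inc fun _ _ h => nearT.1 h

lemma phi_inj : Function.Injective (phi (D := D)) := by
  rintro ⟨β⟩ ⟨γ⟩ h
  exact (mk_eq D.hT).2 (nearT.2 ((mk_eq D.hS).1 h))

def res {N : ℝ → ℝ → ℝ} (β : {β : NRay D.S N | ∀ n, β.1 n ∈ D.H}) : NRay D.T N :=
  ⟨fun n => ⟨D.r (β.1.1 n), rH _⟩, by
    have e : (fun n => D.r (β.1.1 n)) = β.1.1 := funext fun n => rid (β.2 n)
    exact ⟨geoT.2 (by rw [e]; exact β.1.2.1), down (by rw [e]; exact β.1.2.2)⟩⟩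

lemma phi_res {N : ℝ → ℝ → ℝ} (β : {β : NRay D.S N | ∀ n, β.1 n ∈ D.H}) :
    phi (cls (res β)) = cls β.1 :=
  congrArg (Quot.mk _) (Subtype.ext (funext fun n => rid (β.2 n)))

lemma phi_H {N : ℝ → ℝ → ℝ} (β : NRay D.S N) (ξ : Bd D.T) (h : phi ξ = cls β) (n : ℕ) :
    β.1 n ∈ D.H := by
  obtain ⟨γ⟩ := ξ
  obtain ⟨N', hN⟩ := γ.2.2
  obtain ⟨L, hL⟩ := win_of_morse (D := D) N'
  exact ray_in_H β.2.1 (geoT.1 γ.2.1) (fun n => (γ.1 n).2) (hL _ γ.2.1 hN) ((mk_eq D.hS).1 h) n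

lemma phi_range : Set.range (phi (D := D)) = Lim D.S D.H := by
  ext ξ
  constructor
  · rintro ⟨⟨γ⟩, rfl⟩
    obtain ⟨N, hN⟩ := γ.2.2
    obtain ⟨N', h⟩ := up (D := D) N
    have h := h ⟨γ.1, γ.2.1, hN⟩
    have hg := geoT.1 γ.2.1
    exact ⟨N', ⟨fun n => γ.1 n, hg, by simpa using h _ Set.ordConnected_univ⟩, fun n => n,
      fun _ n => γ.1 n, rfl, fun n => ⟨(γ.1 n).2, ⟨hg.1, fun i _ j _ => hg.2 i trivial j trivial⟩,
        h _ Set.ordConnected_Iic⟩,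
      fun i => (Filter.eventually_ge_atTop i).mono fun n hn => ⟨hn, rfl⟩⟩
  · rintro ⟨N, γ, len, g, rfl, h1, h2⟩
    refine ⟨_, phi_res ⟨γ, fun i => ?_⟩⟩
    obtain ⟨n, h3, h4⟩ := (h2 i).exists
    obtain ⟨h5, h6, -⟩ := h1 n
    rw [← h4]
    refine convex D.H.one_mem h5 ?_
    rw [← h6.1, h6.2 0 (by simp) i h3, h6.2 i h3 _ (by simp), h6.2 0 (by simp) _ (by simp)]
    simp only [Nat.dist]
    omega

lemma phi_cont : Continuous (phi (D := D)) := by
  refine continuous_iSup_dom.2 fun N => continuous_coinduced_dom.2 ?_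
  obtain ⟨N', h⟩ := up (D := D) N
  let f : NRay D.T N → NRay D.S N' := fun γ =>
    ⟨fun n => γ.1 n, geoT.1 γ.2.1, by simpa using h γ _ Set.ordConnected_univ⟩
  exact cont_cls.comp (cont_of f fun n => cont_ev ⊥ Subtype.val n)

lemma phi_closed : IsClosedMap (phi (D := D)) := by
  intro C hC
  refine isClosed_iSup_iff.2 fun N => isClosed_coinduced.2 ?_
  have hZ : IsClosed {β : NRay D.S N | ∀ n, β.1 n ∈ D.H} := by
    rw [Set.ofPred_forall]
    refine isClosed_iInter fun n => ?_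
    letI : TopologicalSpace G := ⊥
    haveI : DiscreteTopology G := ⟨rfl⟩
    exact (isClosed_discrete (D.H : Set G)).preimage (cont_ev ⊥ id n)
  have hr : Continuous (res (D := D) (N := N)) := cont_of _ fun n =>
    @Continuous.comp _ _ _ _ _ ⊥ _ _ (cont_ev ⊥ (fun g => (⟨D.r g, rH g⟩ : D.H)) n)
      continuous_subtype_val
  convert hZ.isClosedMap_subtype_val _ (hC.preimage (cont_cls.comp hr)) using 1
  ext β
  constructor
  · rintro ⟨ξ, h1, h2⟩
    refine ⟨⟨β, phi_H β ξ h2⟩, ?_, rfl⟩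
    have := phi_inj ((phi_res ⟨β, phi_H β ξ h2⟩).trans h2.symm)
    simpa [this] using h1
  · rintro ⟨β, h1, rfl⟩
    exact ⟨_, h1, phi_res β⟩

lemma homeo : ∃ φ : Bd D.T ≃ₜ Lim D.S D.H, ∀ γ : MRay D.T, ∃ β : MRay D.S,
    (φ (Quot.mk _ γ)).1 = Quot.mk _ β ∧
      Near D.S (Subtype.val '' Set.range γ.1) (Set.range β.1) := by
  have := (Topology.IsClosedEmbedding.of_continuous_injective_isClosedMap (phi_cont (D := D))
    phi_inj phi_closed).isEmbedding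
  refine ⟨this.toHomeomorph.trans (Homeomorph.setCongr phi_range), fun γ => ⟨inc γ, rfl, ?_⟩⟩
  rw [← Set.range_comp]
  exact (near_eqv D.hS).refl (inc γ)

lemma nonempty : Nonempty (Bd D.T) := by
  obtain ⟨u, -, -, h1, h2⟩ := hom_le (D := D) 0 0 1 (by simp) (by simp) (by simp)
  have hg : Geo D.S Set.univ fun n => D.t ^ n := by
    refine ⟨pow_zero _, fun i _ j _ => ?_⟩
    have e1 := h2 (D.t ^ (i : ℤ)) (D.t ^ (j : ℤ))
    have e2 := wd_pow D.hS D.t (by simp [S]) (j - i) (D.t ^ (i : ℤ))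
    rw [h1, h1, one_mul, one_mul] at e1
    rw [← zpow_add, add_sub_cancel] at e2
    simp only [zpow_natCast] at e1 e2
    have := dist_cast i j
    rw [abs_sub_comm] at this
    beta_reduce
    omega
  obtain ⟨N, h⟩ := morse_of_win (D := D) 1
  have := h _ hg (fun i => ⟨i, le_rfl, by omega, _, Or.inl ⟨rfl, pow_succ _ _⟩⟩) _
    Set.ordConnected_univ
  exact ⟨cls (res ⟨⟨_, hg, by simpa using this⟩, fun n => D.H.pow_mem D.tH n⟩)⟩

open MP_ee56b3_al in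
lemma word (H : Subgroup G) (X : Set G) (hc : Subgroup.closure (X ∪ (H : Set G)) = ⊤) (g : G) :
    ∃ (L : ℕ) (W : Set G), W.Finite ∧ ∀ x, (∀ w ∈ W, x * w ∉ H) → (gr H X).edist x (x * g) ≤ L := by
  have hg : g ∈ Subgroup.closure (X ∪ (H : Set G)) := by rw [hc]; trivial
  induction hg using Subgroup.closure_induction_right with
  | one => exact ⟨0, ∅, Set.finite_empty, by simp⟩
  | mul_right g _ s hs ih =>
    obtain ⟨L, W, h1, h2⟩ := ih
    refine ⟨L + 1, insert g W, h1.insert _, fun x hx =>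
      (SimpleGraph.edist_triangle (v := x * g)).trans ?_⟩
    push_cast
    refine add_le_add (h2 x fun w hw => hx w (Or.inr hw)) (ed_one H X _ _ ?_)
    exact hs.imp (by simp [mul_assoc]) fun h => ⟨by simpa [mul_assoc] using h, hx g (Or.inl rfl)⟩
  | mul_inv_cancel g _ s hs ih =>
    obtain ⟨L, W, h1, h2⟩ := ih
    refine ⟨L + 1, insert (g * s⁻¹) W, h1.insert _, fun x hx =>
      (SimpleGraph.edist_triangle (v := x * g)).trans ?_⟩
    push_cast
    refine add_le_add (h2 x fun w hw => hx w (Or.inr hw)) ?_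
    rw [SimpleGraph.edist_comm]
    refine ed_one H X _ _ ?_
    exact hs.imp (by simp [mul_assoc]) fun h => ⟨by simpa [mul_assoc] using h, hx _ (Or.inl rfl)⟩

open MP_ee56b3_al in
lemma not_he : ¬ HypEmb D.H := by
  rintro ⟨X, hc, -, hf⟩
  obtain ⟨h0, hh0, L0, h1⟩ := reach D.H X hc D.k
  obtain ⟨L1, W, hW, h2⟩ := word D.H X hc D.k
  obtain ⟨u, hu, hv, -, -⟩ := D.hom 1 1 0
  have inj : ∀ x : G, (u x).toAdd = 1 → Function.Injective fun m : ℕ => x ^ 2 ^ m := by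
    intro x hx m n h
    have := congrArg (fun g => (u g).toAdd) h
    simpa [hx] using this
  have bad : {m : ℕ | ∃ w ∈ W, D.k * D.a ^ 2 ^ m * w ∈ D.H}.Finite := by
    have : {m : ℕ | ∃ w ∈ W, D.k * D.a ^ 2 ^ m * w ∈ D.H} =
        ⋃ w ∈ W, {m : ℕ | D.k * D.a ^ 2 ^ m * w ∈ D.H} := by ext; simp
    rw [this]
    refine hW.biUnion fun w _ => Set.Subsingleton.finite fun m hm n hn => inj _ hu ?_
    have := mal (D.H.mul_mem (D.H.pow_mem D.aH (2 ^ m)) (D.H.inv_mem (D.H.pow_mem D.aH (2 ^ n))))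
      (g := D.k⁻¹) (by simpa using kH) (by
        simpa [mul_assoc] using D.H.mul_mem hm (D.H.inv_mem hn))
    exact mul_inv_eq_one.1 this
  have hi : Function.Injective fun m : ℕ => h0⁻¹ * (D.b ^ 2 ^ m * h0) := fun m n h =>
    inj _ hv (by simpa using h)
  refine (bad.infinite_compl.image hi.injOn) ((hf (L0 + 1 + L1 + 1 + L0)).subset ?_)
  rintro _ ⟨m, hm, rfl⟩
  have hb := D.H.pow_mem D.bH (2 ^ m)
  have ha := D.H.pow_mem D.aH (2 ^ m)
  refine ⟨D.H.mul_mem (D.H.inv_mem hh0) (D.H.mul_mem hb hh0), ?_⟩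
  have e0 := ed_tr D.H X h0⁻¹ (D.H.inv_mem hh0) h0 (D.b ^ 2 ^ m * h0)
  rw [inv_mul_cancel] at e0
  refine e0.trans ?_
  have e1 := ed_one D.H X D.k (D.k * D.a ^ 2 ^ m) (Or.inr ⟨by simpa using ha, kH⟩)
  have e2 := h2 (D.k * D.a ^ 2 ^ m) fun w hw h => hm ⟨w, hw, h⟩
  have hr : D.k * D.a ^ 2 ^ m * D.k = D.b ^ 2 ^ m * D.k * ((D.b ^ 2 ^ m)⁻¹ * D.a ^ 2 ^ m) := by
    rw [← mul_assoc, ← D.rel]; group
  have e3 := ed_one D.H X (D.k * D.a ^ 2 ^ m * D.k) (D.b ^ 2 ^ m * D.k) (Or.inr (by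
    rw [hr]
    constructor
    · simpa [mul_assoc] using D.H.mul_mem (D.H.inv_mem ha) hb
    · rw [D.H.mul_mem_cancel_right (D.H.mul_mem (D.H.inv_mem hb) ha), D.H.mul_mem_cancel_left hb]
      exact kH))
  have e4 := (ed_tr D.H X _ hb h0 D.k).trans h1
  rw [SimpleGraph.edist_comm] at e4
  push_cast
  exact SimpleGraph.edist_triangle.trans (add_le_add (SimpleGraph.edist_triangle.trans (add_le_add
    (SimpleGraph.edist_triangle.trans (add_le_add (SimpleGraph.edist_triangle.trans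
      (add_le_add h1 e1)) e2)) e3)) e4)

end Dat

end Pool.Agent.H.MP_1d7d98_al
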