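import Pool.Agent.H.MP_1d7d98_al.E

set_option autoImplicit false

namespace Pool.Agent.H.MP_1d7d98_al

open Multiplicative Monoid

noncomputable section

abbrev K := RatFunc (ZMod 2)
abbrev Z := Multiplicative ℤ
abbrev P := Equiv.Perm K × Z × Z

lemma X1 : (1 + RatFunc.X : K) ≠ 0 := by
  have : (1 + RatFunc.X : K) = algebraMap (Polynomial (ZMod 2)) K (Polynomial.X + Polynomial.C 1) := by
    simp [add_comm]
  rw [this]
  exact RatFunc.algebraMap_ne_zero (Polynomial.X_add_C_ne_zero 1)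

def ua : Kˣ := Units.mk0 RatFunc.X RatFunc.X_ne_zero
def ub : Kˣ := Units.mk0 (1 + RatFunc.X) X1

lemma indep (i j : ℤ) (h : ua ^ i * ub ^ j = 1) : i = 0 ∧ j = 0 := by
  have key : ∀ (c : ZMod 2) (m n : ℕ) (p q : ℕ), (RatFunc.X : K) ^ m * (1 + RatFunc.X) ^ n =
      RatFunc.X ^ p * (1 + RatFunc.X) ^ q → (c ^ m * (1 + c) ^ n = c ^ p * (1 + c) ^ q) := by
    intro c m n p q h
    have : (Polynomial.X : Polynomial (ZMod 2)) ^ m * (1 + Polynomial.X) ^ n =
        Polynomial.X ^ p * (1 + Polynomial.X) ^ q := by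
      apply RatFunc.algebraMap_injective
      simpa using h
    simpa using congrArg (Polynomial.eval c) this
  have h1 : ua ^ i.toNat * ub ^ j.toNat = ua ^ (-i).toNat * ub ^ (-j).toNat := by
    have e : ∀ (x : Kˣ) (n : ℤ), x ^ n.toNat = x ^ n * x ^ (-n).toNat := fun x n => by
      rw [← zpow_natCast, ← zpow_natCast, ← zpow_add]; congr 1; omega
    rw [e ua i, e ub j, mul_mul_mul_comm, h, one_mul]
  have h2 := congrArg Units.val h1
  simp only [ua, ub, Units.val_mul, Units.val_pow_eq_pow_val, Units.val_mk0] at h2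
  have h3 := key 0 _ _ _ _ h2
  have h4 := key 1 _ _ _ _ h2
  rw [show (1 + 1 : ZMod 2) = 0 from rfl] at h4
  simp only [add_zero, one_pow, mul_one, one_mul] at h3 h4
  have e : ∀ n : ℤ, (0 : ZMod 2) ^ n.toNat = 0 ^ (-n).toNat → n = 0 := by
    intro n hn
    rcases lt_trichotomy n 0 with h | h | h
    · rw [show n.toNat = 0 by omega, zero_pow (n := (-n).toNat) (by omega)] at hn
      simp at hn
    · exact h
    · rw [show (-n).toNat = 0 by omega, zero_pow (n := n.toNat) (by omega)] at hn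
      simp at hn
  exact ⟨e i h3, e j h4⟩

def pa : P := (ua.mulLeft, ofAdd 1, 1)
def pb : P := (ub.mulLeft, 1, ofAdd 1)
def pk : P := (Equiv.addRight 1, 1, 1)
def G0 : Subgroup P := Subgroup.closure {pa, pb, pk}
def a0 : G0 := ⟨pa, Subgroup.subset_closure (by simp)⟩
def b0 : G0 := ⟨pb, Subgroup.subset_closure (by simp)⟩
def k0 : G0 := ⟨pk, Subgroup.subset_closure (by simp)⟩

lemma gen0 : Subgroup.closure {a0, b0, k0} = ⊤ := by
  have : ({a0, b0, k0} : Set G0) = Subtype.val ⁻¹' {pa, pb, pk} := by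
    ext x; simp [Subtype.ext_iff, a0, b0, k0]
  rw [this]
  exact Subgroup.closure_closure_coe_preimage

lemma comm0 : Commute a0 b0 := by
  refine Subtype.ext (Prod.ext ?_ rfl)
  ext x
  simp [a0, b0, pa, pb, mul_left_comm]

def pr : G0 →* Z × Z := (MonoidHom.snd _ _).comp G0.subtype
def io : Z × Z →* G0 := (zpowersHom G0 a0).noncommCoprod (zpowersHom G0 b0)
  fun _ _ => comm0.zpow_zpow _ _

lemma pr_io (z : Z × Z) : pr (io z) = z := by
  have h1 : pr a0 = (ofAdd 1, 1) := rfl
  have h2 : pr b0 = (1, ofAdd 1) := rfl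
  ext <;> simp [io, h1, h2]

lemma aff (g : G0) : ∀ x s : K, g.1.1 (x + s) =
    g.1.1 x + (ua ^ (pr g).1.toAdd * ub ^ (pr g).2.toAdd : Kˣ) * s := by
  have hg : g ∈ Subgroup.closure {a0, b0, k0} := by rw [gen0]; trivial
  induction hg using Subgroup.closure_induction with
  | mem g hg =>
    rcases hg with rfl | rfl | rfl <;> intro x s <;>
      simp [pr, a0, b0, k0, pa, pb, pk] <;> ring
  | one => simp
  | mul g h _ _ hg hh =>
    intro x s
    simp only [Subgroup.coe_mul, Prod.fst_mul, Equiv.Perm.mul_apply, hg, hh, map_mul,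
      Prod.snd_mul, toAdd_mul, zpow_add, Units.val_mul]
    ring
  | inv g _ hg =>
    intro x s
    apply g.1.1.injective
    rw [hg, ← mul_assoc, ← Units.val_mul]
    simp only [Prod.fst_inv, Prod.snd_inv, map_inv, toAdd_inv, zpow_neg]
    rw [mul_mul_mul_comm]
    simp

lemma ml_pow (u : Kˣ) (n : ℤ) (x : K) : (u.mulLeft ^ n) x = (u ^ n : Kˣ) * x := by
  have : u.mulLeft = MulAction.toPermHom Kˣ K u := rfl
  rw [this, ← map_zpow]; rfl

lemma free0 (n : G0) (h : pr n = 1) (i j : ℤ) (hc : Commute (a0 ^ i * b0 ^ j) n) :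
    n = 1 ∨ a0 ^ i * b0 ^ j = 1 := by
  have h1 : ∀ s, n.1.1 s = n.1.1 0 + s := fun s => by simpa [h] using aff n 0 s
  have h2 := congrArg (fun g : G0 => g.1.1 0) hc.eq
  simp only [Subgroup.coe_mul, Subgroup.coe_zpow, a0, b0, pa, pb, Prod.fst_mul, Prod.pow_fst,
    Equiv.Perm.mul_apply, ml_pow, mul_zero] at h2
  rw [← mul_assoc, ← Units.val_mul] at h2
  by_cases h0 : n.1.1 0 = 0
  · left
    refine Subtype.ext (Prod.ext ?_ h)
    ext s
    rw [h1, h0]; simp
  · right
    obtain ⟨rfl, rfl⟩ := indep i j (Units.ext ((mul_eq_right₀ h0).1 h2))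
    simp

lemma rel0 (m : ℕ) : k0 * (a0 ^ 2 ^ m * k0 * (a0 ^ 2 ^ m)⁻¹) = b0 ^ 2 ^ m * k0 * (b0 ^ 2 ^ m)⁻¹ := by
  refine Subtype.ext (Prod.ext ?_ (by simp [a0, b0, k0, pa, pb, pk]))
  ext x
  have e : ∀ (u : Kˣ) (n : ℕ), (u.mulLeft ^ n * Equiv.addRight 1 * (u.mulLeft ^ n)⁻¹ : Equiv.Perm K) x =
      x + (u : K) ^ n := fun u n => by
    rw [← zpow_natCast, ← zpow_neg, Equiv.Perm.mul_apply, Equiv.Perm.mul_apply, ml_pow, ml_pow]
    simp [mul_add, ← mul_assoc]
  have := e ua (2 ^ m)
  have h2 := e ub (2 ^ m)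
  simp only [Subgroup.coe_mul, Subgroup.coe_pow, Subgroup.coe_inv, a0, b0, k0, pa, pb, pk,
    Prod.fst_mul, Prod.pow_fst, Prod.fst_inv]
  rw [Equiv.Perm.mul_apply, this, h2]
  simp only [ua, ub, Units.val_mk0, Equiv.coe_addRight]
  rw [add_pow_char_pow]
  ring

abbrev GG := Coprod G0 Z
def t0 : GG := Coprod.inr (ofAdd 1)

open Classical in
def tau : Equiv.Perm (GG × Bool) where
  toFun p := (t0 * p.1, if t0 * p.1 = 1 then !p.2 else p.2)
  invFun p := (t0⁻¹ * p.1, if p.1 = 1 then !p.2 else p.2)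
  left_inv p := by
    ext
    · simp
    · dsimp only; split_ifs <;> simp
  right_inv p := by
    ext
    · simp
    · simp only [mul_inv_cancel_left]; split_ifs <;> simp

def rho0 : G0 →* Equiv.Perm (GG × Bool) where
  toFun g := (Equiv.mulLeft (Coprod.inl g)).prodCongr (Equiv.refl Bool)
  map_one' := by ext <;> simp
  map_mul' g h := by ext <;> simp [mul_assoc]

def rho : GG →* Equiv.Perm (GG × Bool) := Coprod.lift rho0 (zpowersHom _ tau)

lemma gen1 : Subgroup.closure {Coprod.inl a0, Coprod.inl b0, Coprod.inl k0, t0} = ⊤ := by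
  rw [eq_top_iff]
  intro x hx
  clear hx
  induction x using Coprod.induction_on with
  | inl g =>
    have hg : Coprod.inl g ∈ (Subgroup.closure {a0, b0, k0}).map (Coprod.inl : G0 →* GG) :=
      ⟨g, by rw [gen0]; trivial, rfl⟩
    rw [MonoidHom.map_closure] at hg
    refine Subgroup.closure_mono ?_ hg
    rintro _ ⟨s, rfl | rfl | rfl, rfl⟩ <;> simp
  | inr n =>
    have : (Coprod.inr n : GG) = t0 ^ n.toAdd := by
      rw [t0, ← map_zpow, ← ofAdd_zsmul]; simp
    rw [this]
    exact Subgroup.zpow_mem _ (Subgroup.subset_closure (by simp)) _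
  | mul x y hx hy => exact Subgroup.mul_mem _ hx hy

lemma rho_t : rho t0 = tau := by simp [rho, t0]

lemma rho_fst (x : GG) : ∀ p, (rho x p).1 = x * p.1 := by
  have hx : x ∈ Subgroup.closure {Coprod.inl a0, Coprod.inl b0, Coprod.inl k0, t0} := by
    rw [gen1]; trivial
  induction hx using Subgroup.closure_induction with
  | mem g hg =>
    rcases hg with rfl | rfl | rfl | rfl <;> intro p
    · rfl
    · rfl
    · rfl
    · rw [rho_t]; rfl
  | one => simp
  | mul g h _ _ hg hh => intro p; simp [hg, hh, mul_assoc]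
  | inv g _ hg =>
    intro p
    have := hg (rho g⁻¹ p)
    rw [eq_inv_mul_iff_mul_eq, ← this]
    simp

def cut (x : GG) : Bool := (rho x⁻¹ (1, false)).2

lemma cut_inl (x : GG) (g : G0) : cut (x * Coprod.inl g) = cut x := by
  simp only [cut, mul_inv_rev, map_mul, Equiv.Perm.mul_apply,
    ← map_inv (Coprod.inl : G0 →* GG) g]
  rfl

open Classical in
lemma cut_t (x : GG) : cut (x * t0) = if x = 1 then !cut x else cut x := by
  simp only [cut, mul_inv_rev, map_mul, Equiv.Perm.mul_apply]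
  rw [map_inv rho t0, rho_t]
  show (if (rho x⁻¹ (1, false)).1 = 1 then _ else _) = _
  simp only [rho_fst, mul_one, inv_eq_one]

def dat : Dat GG where
  a := Coprod.inl a0
  b := Coprod.inl b0
  k := Coprod.inl k0
  t := t0
  r := Coprod.map (io.comp pr) (MonoidHom.id _)
  c := cut
  gen := gen1
  comm := comm0.map _
  ra := congrArg Coprod.inl (show io (ofAdd 1, 1) = a0 by simp [io])
  rb := congrArg Coprod.inl (show io (1, ofAdd 1) = b0 by simp [io])
  rk := (congrArg Coprod.inl (show io 1 = 1 from map_one _)).trans (map_one _)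
  rt := rfl
  hom i j l := ⟨Coprod.lift (((zpowersHom _ (ofAdd i)).coprod (zpowersHom _ (ofAdd j))).comp pr)
    (zpowersHom _ (ofAdd l)), by
      simp [t0, show pr a0 = (ofAdd 1, 1) from rfl, show pr b0 = (1, ofAdd 1) from rfl,
        show pr k0 = 1 from rfl]⟩
  ca x := cut_inl x _
  cb x := cut_inl x _
  ck x := cut_inl x _
  ct x hx := by rw [cut_t, if_neg hx]
  c1 := by
    have := cut_t 1
    rw [one_mul, if_pos rfl] at this
    rw [this]; simp
  k1 h := by
    have := congrArg (fun g : G0 => g.1.1 0)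
      (Coprod.inl_injective (h.trans (map_one (Coprod.inl : G0 →* GG)).symm))
    simp [k0, pk] at this
  free n hn h i j hc := by
    have : Subgroup.closure {Coprod.inl a0, Coprod.inl b0, Coprod.inl k0} ≤
        (Coprod.inl : G0 →* GG).range := by
      rw [Subgroup.closure_le]
      rintro _ (rfl | rfl | rfl) <;> exact ⟨_, rfl⟩
    obtain ⟨n, rfl⟩ := this hn
    have h1 : io (pr n) = 1 :=
      Coprod.inl_injective (h.trans (map_one (Coprod.inl : G0 →* GG)).symm)
    have h2 : pr n = 1 := by rw [← pr_io (pr n), h1, map_one]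
    rw [← map_zpow, ← map_zpow, ← map_mul] at hc ⊢
    have h3 := free0 n h2 i j (Coprod.inl_injective (N := Z) (by simpa using hc.eq))
    exact h3.imp (fun h => by rw [h, map_one]) fun h => by rw [h, map_one]
  rel m := by simpa using congrArg (Coprod.inl : G0 →* GG) (rel0 m)

end

end Pool.Agent.H.MP_1d7d98_al
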